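import Pool.Agent.Helper58.NS.Def
import Pool.Agent.Helper12.LC.A1

/-!
# DP, part O: non-orthogonality is preserved
-/

set_option autoImplicit false
set_option linter.unusedSectionVars false

open Polynomial Finset DirectSum

namespace Pool.Agent.Helper53.DP

open Pool.Agent.Helper766_CF Pool.Agent.Helper766_CG Pool.Agent.Helper766_CH
open Pool.Agent.Helper58.CS Pool.Agent.Helper58.OP Pool.Agent.Helper58.SH Pool.Agent.Helper58.BG
open Pool.Agent.Helper58.LC Pool.Agent.Helper58.NS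

variable {R : Type} [CommRing R] [Algebra ℂ R] {𝒜 : ℕ → Submodule ℂ R} [GradedAlgebra 𝒜]
  {br : R →ₗ[ℂ] R →ₗ[ℂ] R}

section

variable {A : Type} [CommRing A] [Algebra ℂ A]

/-- The point at zero of a curve. -/
noncomputable def pt (F : R →ₐ[ℂ] A[X]) : R →ₐ[ℂ] A where
  toRingHom := (Polynomial.constantCoeff).comp F.toRingHom
  commutes' := fun c => by
    change Polynomial.constantCoeff (F (algebraMap ℂ R c)) = _
    rw [AlgHom.commutes, Polynomial.constantCoeff_apply]
    simp [Polynomial.algebraMap_apply]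

lemma pt_apply (F : R →ₐ[ℂ] A[X]) (r : R) : pt F r = (F r).coeff 0 := rfl

/-- The tangent vector at zero of a curve. -/
noncomputable def tg (F : R →ₐ[ℂ] A[X]) : R →ₗ[ℂ] A where
  toFun := fun r => (F r).coeff 1
  map_add' := fun a b => by rw [map_add, Polynomial.coeff_add]
  map_smul' := fun c a => by rw [map_smul, Polynomial.coeff_smul, RingHom.id_apply]

lemma tg_apply (F : R →ₐ[ℂ] A[X]) (r : R) : tg F r = (F r).coeff 1 := rfl

lemma isDer_tg {F G : R →ₐ[ℂ] A[X]} (h : ∀ r, (F r).coeff 0 = (G r).coeff 0) :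
    IsDer (pt F) (tg G) := by
  refine ⟨fun a b => ?_⟩
  rw [tg_apply, tg_apply, tg_apply, pt_apply, pt_apply, h a, h b, map_mul,
    Polynomial.mul_coeff_one]
  ring

lemma swap1 (C : Core 𝒜 br) (x : R →ₐ[ℂ] A) (L : List (R × A)) (p : R × A) :
    p.2 * hv br x L p.1 = -(L.map fun q => q.2 * (p.2 * x (br p.1 q.1))).sum := by
  induction L with
  | nil => simp [hv]
  | cons q L ih =>
    unfold hv at ih ⊢
    rw [List.map_cons, List.sum_cons, List.map_cons, List.sum_cons, mul_add, ih, neg_add,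
      C.poisson.skew q.1 p.1, map_neg]
    ring

lemma swap (C : Core 𝒜 br) (x : R →ₐ[ℂ] A) (L₁ L₂ : List (R × A)) :
    (L₂.map fun q => q.2 * hv br x L₁ q.1).sum = -(L₁.map fun q => q.2 * hv br x L₂ q.1).sum := by
  induction L₂ with
  | nil => simp [hv]
  | cons p L ih =>
    rw [List.map_cons, List.sum_cons, ih, swap1 C x L₁ p]
    have h1 : ∀ q : R × A, q.2 * hv br x (p :: L) q.1 =
        q.2 * (p.2 * x (br p.1 q.1)) + q.2 * hv br x L q.1 := by
      intro q
      unfold hv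
      rw [List.map_cons, List.sum_cons, mul_add]
    rw [List.map_congr_left (fun q _ => h1 q), List.sum_map_add]
    ring

end

/-- O. Non-orthogonality is preserved. -/
theorem nonorth (C : Core 𝒜 br) {k : Type} [Field k] [Algebra ℂ k] {f₁ f₂ : R →ₐ[ℂ] k[X]}
    (hf₁ : EN 𝒜 f₁) {L₀ : List (R × k)}
    (hL₀ : ∀ r, (f₂ r).coeff 1 = (L₀.map fun q => q.2 * (f₁ (br q.1 r)).coeff 0).sum)
    (hne : (L₀.map fun q => q.2 * (f₁ q.1).coeff 1).sum ≠ 0)
    {F₁ F₂ : R →ₐ[ℂ] (PowerSeries k)[X]} (h0 : ∀ r, (F₁ r).coeff 0 = (F₂ r).coeff 0)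
    (h₁ : ∀ r i, PowerSeries.coeff 0 ((F₁ r).coeff i) = (f₁ r).coeff i)
    (h₂ : ∀ r i, PowerSeries.coeff 0 ((F₂ r).coeff i) = (f₂ r).coeff i) :
    ∃ L : List (R × PowerSeries k),
      (∀ r, (F₂ r).coeff 1 = (L.map fun q => q.2 * (F₁ (br q.1 r)).coeff 0).sum) ∧
        (L.map fun q => q.2 * (F₁ q.1).coeff 1).sum ≠ 0 := by
  -- a function of positive degree does not vanish at the point
  obtain ⟨d, hd, a, ha, hane⟩ : ∃ d : ℕ, 0 < d ∧ ∃ a ∈ 𝒜 d, (f₁ a).coeff 0 ≠ 0 := by
    by_contra hcon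
    push Not at hcon
    have h1 : Ideal.span {t : k[X] | ∃ k : ℕ, 0 < k ∧ ∃ a ∈ 𝒜 k, f₁ a = t} ≤
        RingHom.ker (Polynomial.constantCoeff (R := k)) := by
      rw [Ideal.span_le]
      rintro _ ⟨d, hd, a, ha, rfl⟩
      exact hcon d hd a ha
    have h2 : (1 : k[X]) ∈ RingHom.ker (Polynomial.constantCoeff (R := k)) := by
      apply h1
      unfold EN at hf₁
      rw [hf₁]
      trivial
    rw [RingHom.mem_ker, map_one] at h2
    exact one_ne_zero h2
  have hEN0 : EN 𝒜 (pt f₁) := by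
    unfold EN
    refine Ideal.eq_top_of_isUnit_mem _ (Ideal.subset_span ⟨d, hd, a, ha, rfl⟩) ?_
    rw [pt_apply]
    exact isUnit_iff_ne_zero.2 hane
  have hEN : EN 𝒜 (pt F₁) := by
    unfold EN
    refine Ideal.eq_top_of_isUnit_mem _ (Ideal.subset_span ⟨d, hd, a, ha, rfl⟩) ?_
    rw [pt_apply, PowerSeries.isUnit_iff_constantCoeff,
      ← PowerSeries.coeff_zero_eq_constantCoeff_apply, h₁]
    exact isUnit_iff_ne_zero.2 hane
  obtain ⟨L, hL⟩ := Pool.Agent.Helper12.LC.exists_hv C hEN (tg F₂) (isDer_tg h0)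
  obtain ⟨L₁, hL₁⟩ := Pool.Agent.Helper12.LC.exists_hv C hEN0 (tg f₁) (isDer_tg (fun _ => rfl))
  refine ⟨L, fun r => hL r, ?_⟩
  intro hzero
  set c0 : PowerSeries k →+* k := PowerSeries.constantCoeff (R := k) with hc0
  have hc : ∀ p : PowerSeries k, c0 p = PowerSeries.coeff 0 p := fun p => by
    rw [hc0, PowerSeries.coeff_zero_eq_constantCoeff_apply]
  set L' : List (R × k) := L.map fun q => (q.1, c0 q.2) with hL'
  have hhv' : ∀ r, hv br (pt f₁) L' r = (f₂ r).coeff 1 := by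
    intro r
    rw [← h₂ r 1, ← hc]
    have h3 : (F₂ r).coeff 1 = hv br (pt F₁) L r := hL r
    rw [h3]
    unfold hv
    rw [map_list_sum, hL']
    simp only [List.map_map]
    congr 1
    refine List.map_congr_left fun q _ => ?_
    simp only [Function.comp]
    rw [map_mul, pt_apply, pt_apply, hc ((F₁ (br q.1 r)).coeff 0), h₁]
  have hhv0 : ∀ r, hv br (pt f₁) L₀ r = (f₂ r).coeff 1 := fun r => (hL₀ r).symm
  have hS' : (L'.map fun q => q.2 * (f₁ q.1).coeff 1).sum = 0 := by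
    have h3 := congrArg c0 hzero
    rw [map_zero, map_list_sum] at h3
    rw [← h3, hL']
    simp only [List.map_map]
    congr 1
    refine List.map_congr_left fun q _ => ?_
    simp only [Function.comp]
    rw [map_mul, hc ((F₁ q.1).coeff 1), h₁]
  have key : ∀ M : List (R × k), (∀ r, hv br (pt f₁) M r = (f₂ r).coeff 1) →
      (M.map fun q => q.2 * (f₁ q.1).coeff 1).sum =
        -(L₁.map fun q => q.2 * (f₂ q.1).coeff 1).sum := by
    intro M hM
    have h3 : (M.map fun q => q.2 * (f₁ q.1).coeff 1).sum =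
        (M.map fun q => q.2 * hv br (pt f₁) L₁ q.1).sum := by
      congr 1
      refine List.map_congr_left fun q _ => ?_
      rw [← hL₁ q.1, tg_apply]
    rw [h3, swap C (pt f₁) L₁ M]
    congr 2
    refine List.map_congr_left fun q _ => ?_
    rw [hM q.1]
  apply hne
  rw [key L₀ hhv0, ← key L' hhv', hS']

end Pool.Agent.Helper53.DP
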